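import Pool.Agent.H628R4.TP.LocDefs
import Mathlib.RingTheory.MvPowerSeries.Derivative

set_option autoImplicit false

/-! Functional equations in formal coordinates: a functional equation of a polynomial `f` gives a
functional equation, with formal power series coefficients, of every polynomial `g` which is
obtained from `f` by a formal change of coordinates at some point. -/

namespace Pool.Agent.Y229.GL

open MvPolynomial Pool.Agent.H628R4.TP

variable {N : ℕ}

/-- The formal power series `φ_i` are formal coordinates at the point given by their constant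
coefficients: the determinant of their linear parts is not zero. -/
def IsCoord (φ : Fin N → MvPowerSeries (Fin N) ℂ) : Prop :=
  (Matrix.of fun i j => MvPowerSeries.coeff (Finsupp.single j 1) (φ i)).det ≠ 0

/-- the Jacobian matrix -/
noncomputable def jac (φ : Fin N → MvPowerSeries (Fin N) ℂ) :
    Matrix (Fin N) (Fin N) (MvPowerSeries (Fin N) ℂ) :=
  Matrix.of fun i j => MvPowerSeries.pderiv ℂ j (φ i)

lemma jac_unit {φ : Fin N → MvPowerSeries (Fin N) ℂ} (h : IsCoord φ) : IsUnit (jac φ).det := by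
  rw [MvPowerSeries.isUnit_iff_constantCoeff, RingHom.map_det]
  refine isUnit_iff_ne_zero.2 ?_
  have e : (MvPowerSeries.constantCoeff (σ := Fin N) (R := ℂ)).mapMatrix (jac φ) =
      Matrix.of fun i j => MvPowerSeries.coeff (Finsupp.single j 1) (φ i) := by
    ext i j
    rw [RingHom.mapMatrix_apply, Matrix.map_apply]
    unfold jac
    rw [Matrix.of_apply, Matrix.of_apply, ← MvPowerSeries.coeff_zero_eq_constantCoeff_apply,
      MvPowerSeries.coeff_pderiv]
    simp
  rw [e]
  exact h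

/-- the derivation `∑_j (J⁻¹)_{j i} ∂_j` -/
noncomputable def DI (φ : Fin N → MvPowerSeries (Fin N) ℂ) (i : Fin N) :
    Derivation ℂ (MvPowerSeries (Fin N) ℂ) (MvPowerSeries (Fin N) ℂ) :=
  ∑ j, ((jac φ)⁻¹ j i) • MvPowerSeries.pderiv ℂ j

lemma DI_apply (φ : Fin N → MvPowerSeries (Fin N) ℂ) (i : Fin N) (h : MvPowerSeries (Fin N) ℂ) :
    DI φ i h = ∑ j, (jac φ)⁻¹ j i * MvPowerSeries.pderiv ℂ j h := by
  have h1 := congrFun (map_sum (Derivation.coeFnAddMonoidHom (R := ℂ)
    (A := MvPowerSeries (Fin N) ℂ) (M := MvPowerSeries (Fin N) ℂ))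
    (fun j => ((jac φ)⁻¹ j i) • MvPowerSeries.pderiv ℂ j) Finset.univ) h
  rw [Finset.sum_apply] at h1
  exact h1

lemma DI_phi {φ : Fin N → MvPowerSeries (Fin N) ℂ} (h : IsCoord φ) (i k : Fin N) :
    DI φ i (φ k) = if k = i then 1 else 0 := by
  rw [DI_apply]
  have h1 := congrFun (congrFun (Matrix.mul_nonsing_inv (jac φ) (jac_unit h)) k) i
  rw [Matrix.mul_apply, Matrix.one_apply] at h1
  rw [← h1]
  exact Finset.sum_congr rfl fun j _ => mul_comm _ _

lemma DI_aeval {φ : Fin N → MvPowerSeries (Fin N) ℂ} (h : IsCoord φ) (i : Fin N)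
    (f : MvPolynomial (Fin N) ℂ) :
    (aeval φ (pderiv i f) : MvPowerSeries (Fin N) ℂ) = DI φ i (aeval φ f) := by
  induction f using MvPolynomial.induction_on with
  | C a =>
    rw [pderiv_C, map_zero, ← algebraMap_eq, AlgHom.commutes, Derivation.map_algebraMap]
  | add p q hp hq => rw [map_add, map_add, map_add, map_add, hp, hq]
  | mul_X p k hp =>
    rw [Derivation.leibniz, map_add, smul_eq_mul, smul_eq_mul, map_mul, map_mul, map_mul,
      Derivation.leibniz, smul_eq_mul, smul_eq_mul, hp, aeval_X, DI_phi h, pderiv_X]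
    congr 2
    by_cases hk : k = i
    · subst hk
      simp
    · rw [if_neg hk, Pi.single_eq_of_ne hk, map_zero]

/-- On polynomials the operator is a sum of products of power series and elements of the Weyl
algebra. -/
def SS (T : MvPowerSeries (Fin N) ℂ →ₗ[ℂ] MvPowerSeries (Fin N) ℂ) : Prop :=
  ∃ L : List (MvPowerSeries (Fin N) ℂ × weylS (Fin N)), ∀ g : MvPolynomial (Fin N) ℂ,
    T (g : MvPowerSeries (Fin N) ℂ) = (L.map fun x => x.1 *
      (((x.2 : Module.End ℂ (MvPolynomial (Fin N) ℂ)) g : MvPolynomial (Fin N) ℂ) :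
        MvPowerSeries (Fin N) ℂ)).sum

lemma SS.id : SS (LinearMap.id : MvPowerSeries (Fin N) ℂ →ₗ[ℂ] MvPowerSeries (Fin N) ℂ) :=
  ⟨[(1, 1)], fun g => by simp⟩

lemma SS.add {T U : MvPowerSeries (Fin N) ℂ →ₗ[ℂ] MvPowerSeries (Fin N) ℂ} (hT : SS T)
    (hU : SS U) : SS (T + U) := by
  obtain ⟨L, hL⟩ := hT
  obtain ⟨M, hM⟩ := hU
  exact ⟨L ++ M, fun g => by
    rw [LinearMap.add_apply, hL, hM, List.map_append, List.sum_append]⟩

lemma SS.zero : SS (0 : MvPowerSeries (Fin N) ℂ →ₗ[ℂ] MvPowerSeries (Fin N) ℂ) :=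
  ⟨[], fun g => by simp⟩

lemma SS.sum {ι : Type} (s : Finset ι)
    (T : ι → (MvPowerSeries (Fin N) ℂ →ₗ[ℂ] MvPowerSeries (Fin N) ℂ)) (h : ∀ i ∈ s, SS (T i)) :
    SS (∑ i ∈ s, T i) := by
  classical
  induction s using Finset.induction_on with
  | empty => rw [Finset.sum_empty]; exact SS.zero
  | insert a s ha ih =>
    rw [Finset.sum_insert ha]
    exact (h a (Finset.mem_insert_self a s)).add (ih fun i hi => h i (Finset.mem_insert_of_mem hi))

lemma SS.mulL {T : MvPowerSeries (Fin N) ℂ →ₗ[ℂ] MvPowerSeries (Fin N) ℂ} (hT : SS T)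
    (a : MvPowerSeries (Fin N) ℂ) : SS ((LinearMap.mulLeft ℂ a).comp T) := by
  obtain ⟨L, hL⟩ := hT
  refine ⟨L.map fun x => (a * x.1, x.2), fun g => ?_⟩
  rw [LinearMap.comp_apply, LinearMap.mulLeft_apply, hL, ← List.sum_map_mul_left, List.map_map]
  congr 1
  refine List.map_congr_left fun x _ => ?_
  simp only [Function.comp_apply]
  ring

/-- the partial derivative as an element of the Weyl algebra -/
noncomputable def pdW (j : Fin N) : weylS (Fin N) :=
  ⟨((pderiv j : Derivation ℂ (MvPolynomial (Fin N) ℂ) (MvPolynomial (Fin N) ℂ)) :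
    MvPolynomial (Fin N) ℂ →ₗ[ℂ] MvPolynomial (Fin N) ℂ),
    Algebra.subset_adjoin (Or.inr ⟨j, rfl⟩)⟩

lemma sum_map_add' {α : Type} (L : List α) (u w : α → MvPowerSeries (Fin N) ℂ) :
    (L.map fun x => u x + w x).sum = (L.map u).sum + (L.map w).sum := by
  induction L with
  | nil => simp
  | cons x L ih => rw [List.map_cons, List.map_cons, List.map_cons, List.sum_cons, List.sum_cons,
      List.sum_cons, ih]; ring

lemma SS.pd {T : MvPowerSeries (Fin N) ℂ →ₗ[ℂ] MvPowerSeries (Fin N) ℂ} (hT : SS T)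
    (j : Fin N) : SS (((MvPowerSeries.pderiv ℂ j : Derivation ℂ _ _) :
      MvPowerSeries (Fin N) ℂ →ₗ[ℂ] MvPowerSeries (Fin N) ℂ).comp T) := by
  obtain ⟨L, hL⟩ := hT
  refine ⟨(L.map fun x => (MvPowerSeries.pderiv ℂ j x.1, x.2)) ++
    L.map fun x => (x.1, pdW j * x.2), fun g => ?_⟩
  rw [LinearMap.comp_apply, hL, map_list_sum, List.map_map, List.map_append, List.sum_append,
    List.map_map, List.map_map, ← sum_map_add']
  congr 1
  refine List.map_congr_left fun x _ => ?_
  simp only [Function.comp_apply]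
  show MvPowerSeries.pderiv ℂ j (x.1 * _) = _
  rw [Derivation.leibniz, smul_eq_mul, smul_eq_mul, MvPowerSeries.pderiv_coe, add_comm]
  congr 1
  exact mul_comm _ _

/-- the operators which can be transported -/
def Good (φ : Fin N → MvPowerSeries (Fin N) ℂ) (P : Module.End ℂ (MvPolynomial (Fin N) ℂ)) :
    Prop :=
  ∃ P' : MvPowerSeries (Fin N) ℂ →ₗ[ℂ] MvPowerSeries (Fin N) ℂ,
    (∀ h, aeval φ (P h) = P' (aeval φ h)) ∧
    ∀ T : MvPowerSeries (Fin N) ℂ →ₗ[ℂ] MvPowerSeries (Fin N) ℂ, SS T → SS (P'.comp T)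

lemma good_all {φ : Fin N → MvPowerSeries (Fin N) ℂ} (hφ : IsCoord φ)
    (P : Module.End ℂ (MvPolynomial (Fin N) ℂ)) (hP : P ∈ weylS (Fin N)) : Good φ P := by
  unfold weylS at hP
  induction hP using Algebra.adjoin_induction with
  | mem P hP =>
    rcases hP with ⟨i, rfl⟩ | ⟨i, rfl⟩
    · refine ⟨LinearMap.mulLeft ℂ (φ i), fun h => ?_, fun T hT => hT.mulL _⟩
      rw [LinearMap.mulLeft_apply, map_mul, aeval_X, LinearMap.mulLeft_apply]
    · refine ⟨((DI φ i : Derivation ℂ _ _) : MvPowerSeries (Fin N) ℂ →ₗ[ℂ] _), fun h => ?_,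
        fun T hT => ?_⟩
      · exact DI_aeval hφ i h
      · have e : ((DI φ i : Derivation ℂ _ _) : MvPowerSeries (Fin N) ℂ →ₗ[ℂ] _).comp T =
            ∑ j, (LinearMap.mulLeft ℂ ((jac φ)⁻¹ j i)).comp
              (((MvPowerSeries.pderiv ℂ j : Derivation ℂ _ _) :
                MvPowerSeries (Fin N) ℂ →ₗ[ℂ] MvPowerSeries (Fin N) ℂ).comp T) := by
          refine LinearMap.ext fun h => ?_
          rw [LinearMap.comp_apply, LinearMap.sum_apply]
          exact DI_apply φ i (T h)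
        rw [e]
        exact SS.sum _ _ fun j _ => (hT.pd j).mulL _
  | algebraMap c =>
    refine ⟨c • LinearMap.id, fun h => ?_, fun T hT => ?_⟩
    · rw [LinearMap.smul_apply, LinearMap.id_apply, Algebra.algebraMap_eq_smul_one,
        LinearMap.smul_apply, map_smul]
      rfl
    · have e : (c • LinearMap.id : MvPowerSeries (Fin N) ℂ →ₗ[ℂ] _).comp T =
          (LinearMap.mulLeft ℂ (MvPowerSeries.C c)).comp T := by
        refine LinearMap.ext fun h => ?_
        rw [LinearMap.comp_apply, LinearMap.comp_apply, LinearMap.smul_apply, LinearMap.id_apply,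
          LinearMap.mulLeft_apply, MvPowerSeries.smul_eq_C_mul]
      rw [e]
      exact hT.mulL _
  | add P Q _ _ hP hQ =>
    obtain ⟨P', h1, h2⟩ := hP
    obtain ⟨Q', h3, h4⟩ := hQ
    refine ⟨P' + Q', fun h => ?_, fun T hT => ?_⟩
    · rw [LinearMap.add_apply, map_add, h1, h3, LinearMap.add_apply]
    · rw [LinearMap.add_comp]
      exact (h2 T hT).add (h4 T hT)
  | mul P Q _ _ hP hQ =>
    obtain ⟨P', h1, h2⟩ := hP
    obtain ⟨Q', h3, h4⟩ := hQ
    refine ⟨P'.comp Q', fun h => ?_, fun T hT => ?_⟩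
    · rw [Module.End.mul_apply, h1, h3, LinearMap.comp_apply]
    · rw [LinearMap.comp_assoc]
      exact h2 _ (h4 T hT)

/-- sums of the required form -/
def RR (g : MvPolynomial (Fin N) ℂ) (F : ℕ → MvPowerSeries (Fin N) ℂ) : Prop :=
  ∃ L : List (ℕ × MvPowerSeries (Fin N) ℂ × weylS (Fin N)), ∀ s : ℕ,
    F s = (L.map fun x => MvPowerSeries.C ((s : ℂ) ^ x.1) * (x.2.1 *
      (((x.2.2 : Module.End ℂ (MvPolynomial (Fin N) ℂ)) (g ^ (s + 1)) : MvPolynomial (Fin N) ℂ) :
        MvPowerSeries (Fin N) ℂ))).sum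

lemma RR.add {g : MvPolynomial (Fin N) ℂ} {F G : ℕ → MvPowerSeries (Fin N) ℂ} (hF : RR g F)
    (hG : RR g G) : RR g (fun s => F s + G s) := by
  obtain ⟨L, hL⟩ := hF
  obtain ⟨M, hM⟩ := hG
  exact ⟨L ++ M, fun s => by
    show F s + G s = _
    rw [hL, hM, List.map_append, List.sum_append]⟩

lemma RR.sum {ι : Type} {g : MvPolynomial (Fin N) ℂ} (S : Finset ι)
    (F : ι → ℕ → MvPowerSeries (Fin N) ℂ) (h : ∀ i ∈ S, RR g (F i)) :
    RR g (fun s => ∑ i ∈ S, F i s) := by
  classical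
  induction S using Finset.induction_on with
  | empty => exact ⟨[], fun s => by simp⟩
  | insert a S ha ih =>
    have h1 := (h a (Finset.mem_insert_self a S)).add
      (ih fun i hi => h i (Finset.mem_insert_of_mem hi))
    convert h1 using 2 with s
    rw [Finset.sum_insert ha]

/-- **Formal changes of coordinates.** -/
theorem formal_local {f g : MvPolynomial (Fin N) ℂ} {b : Polynomial ℂ} (hb : IsBFunction f b)
    {φ : Fin N → MvPowerSeries (Fin N) ℂ} (hφ : IsCoord φ)
    (hfg : (aeval φ f : MvPowerSeries (Fin N) ℂ) = (g : MvPowerSeries (Fin N) ℂ)) :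
    Pool.Agent.H628R4.TP.IsLocalBFunction g b := by
  obtain ⟨P, hP⟩ := hb
  have h1 : RR g (fun s => ∑ m ∈ P.support, ((s : ℂ) ^ m) • (aeval φ
      (((P m : weylS (Fin N)) : Module.End ℂ (MvPolynomial (Fin N) ℂ)) (f ^ (s + 1))) :
        MvPowerSeries (Fin N) ℂ)) := by
    refine RR.sum _ _ fun m _ => ?_
    obtain ⟨P', h2, h3⟩ := good_all hφ _ (P m).2
    obtain ⟨L, hL⟩ := h3 _ SS.id
    refine ⟨L.map fun x => (m, x.1, x.2), fun s => ?_⟩
    show ((s : ℂ) ^ m) • (aeval φ (((P m : weylS (Fin N)) :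
      Module.End ℂ (MvPolynomial (Fin N) ℂ)) (f ^ (s + 1))) : MvPowerSeries (Fin N) ℂ) = _
    rw [h2, map_pow, hfg, List.map_map, ← MvPolynomial.coe_pow]
    have h4 := hL (g ^ (s + 1))
    rw [LinearMap.comp_apply, LinearMap.id_apply] at h4
    rw [h4, MvPowerSeries.smul_eq_C_mul, ← List.sum_map_mul_left]
    rfl
  obtain ⟨L, hL⟩ := h1
  refine ⟨L.length, fun i => (L.get i).1, fun i => (L.get i).2.1, fun i => (L.get i).2.2,
    fun s => ?_⟩
  have h5 := congrArg (fun q => (aeval φ q : MvPowerSeries (Fin N) ℂ)) (hP s)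
  rw [map_mul, map_pow, hfg, ← algebraMap_eq, AlgHom.commutes, Finsupp.sum, map_sum] at h5
  have h6 := hL s
  simp only [map_smul] at h5
  have h5' := h5.trans h6
  clear h5
  rw [coe_pow]
  have h7 : (algebraMap ℂ (MvPowerSeries (Fin N) ℂ)) (Polynomial.eval (s : ℂ) b) =
      MvPowerSeries.C (Polynomial.eval (s : ℂ) b) := rfl
  rw [← h7, h5', ← List.sum_ofFn]
  congr 1
  conv_lhs => rw [← List.ofFn_get L, List.map_ofFn]
  rfl

end Pool.Agent.Y229.GL
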