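import Pool.Agent.Y229.CF.Loc
import Pool.Agent.W422.GC.Tw

set_option autoImplicit false

/-! The local twisted topological zeta functions of the polynomials which are nondegenerate for the
compact faces. -/

namespace Pool.Agent.Y229.GL

open Polynomial Pool.Agent.H628R4.TZ Pool.Agent.H628R4.TP Pool.Agent.W425.SM
  Pool.Agent.W425.SG Pool.Agent.W422.GC Pool.Agent.W425.ND Pool.Agent.Y229.CF

variable {r N : ℕ}

/-- The twisted local topological zeta function `Z^(e)` at the origin, on the toric embedded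
resolution given by the fan `R`: the cones whose relative interior is in the open orthant (the
orbits over the origin) and all of whose rays `ρ` have multiplicity `ord ρ` divisible by `e`; the
strict transform (multiplicity `1`) is left out if `e ≥ 2`. -/
noncomputable def topZetaTwistedLocal (v : Fin r → Fin N → ℕ) (R : SmoothFan N) (e : ℕ) :
    RatFunc ℂ :=
  open Classical in
  ∑ σ ∈ R.cones.filter (fun σ => (∀ l, ∃ ρ ∈ σ, ρ l ≠ 0) ∧ ∀ ρ ∈ σ, e ∣ ordAlong v ρ),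
    (RatFunc.C (((chiO σ : ℝ) - Pool.Agent.W422.GC.chiG v R σ : ℝ) : ℂ) +
      (if e ∣ 1 then RatFunc.C ((Pool.Agent.W422.GC.chiG v R σ : ℝ) : ℂ) * (RatFunc.X + 1)⁻¹
        else 0)) *
    ∏ ρ ∈ σ, ((ordAlong v ρ : RatFunc ℂ) * RatFunc.X + ((∑ l, ρ l : ℕ) : RatFunc ℂ))⁻¹

lemma exists_ord (v : Fin r → Fin N → ℕ) (hv0 : ∀ j, v j ≠ 0) (R : SmoothFan N)
    (hR : Principal v R) (σ : Finset (Fin N → ℕ)) (hσ : σ ∈ R.cones)
    (hI : ∀ l, ∃ ρ ∈ σ, ρ l ≠ 0) : ∃ ρ ∈ σ, ordAlong v ρ ≠ 0 := by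
  classical
  obtain ⟨j, hj⟩ := hR σ hσ
  by_contra hcon
  push Not at hcon
  apply hv0 j
  funext l
  obtain ⟨ρ, hρ, hl⟩ := hI l
  have h1 : ordAlong v ρ = ∑ l, ρ l * v j l := by
    unfold ordAlong
    haveI : Nonempty (Fin r) := ⟨j⟩
    exact le_antisymm (ciInf_le (OrderBot.bddBelow _) j) (le_ciInf (hj ρ hρ))
  have h2 : ∑ l, ρ l * v j l = 0 := by rw [← h1]; exact hcon ρ hρ
  have h3 := (Finset.sum_eq_zero_iff.1 h2) l (Finset.mem_univ l)
  rcases Nat.mul_eq_zero.1 h3 with h | h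
  · exact absurd h hl
  · exact h

lemma tw_two (v : Fin r → Fin N → ℕ) (hv0 : ∀ j, v j ≠ 0) (R : SmoothFan N)
    (hR : Principal v R) (e : ℕ) (he : 2 ≤ e) :
    topZetaTwistedLocal v R e = Pool.Agent.W422.GC.Tw.twG v R e (-1) := by
  classical
  have h1 : ¬ e ∣ 1 := fun h => by have := Nat.le_of_dvd one_pos h; omega
  unfold topZetaTwistedLocal Pool.Agent.W422.GC.Tw.twG
  rw [Finset.sum_filter, Finset.sum_filter]
  refine Finset.sum_congr rfl fun σ hσ => ?_
  rw [if_neg h1, add_zero]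
  by_cases h2 : ∀ l, ∃ ρ ∈ σ, ρ l ≠ 0
  · have h3 := exists_ord v hv0 R hR σ hσ h2
    by_cases h4 : ∀ ρ ∈ σ, e ∣ ordAlong v ρ
    · rw [if_pos ⟨h2, h4⟩, if_pos ⟨Or.inr h2, h3, h4⟩]
    · rw [if_neg (fun h => h4 h.2), if_neg (fun h => h4 h.2.2)]
  · rw [if_neg (fun h => h2 h.1), if_neg]
    rintro ⟨h, _⟩
    rcases h with h | h
    · norm_num at h
    · exact h2 h

lemma tw_one (v : Fin r → Fin N → ℕ) (R : SmoothFan N) :
    topZetaTwistedLocal v R 1 = topZetaGLocal v R := by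
  classical
  unfold topZetaTwistedLocal topZetaGLocal
  refine Finset.sum_congr ?_ fun σ _ => ?_
  · refine Finset.filter_congr fun σ _ => ?_
    exact ⟨fun h => h.1, fun h => ⟨h, fun ρ _ => one_dvd _⟩⟩
  · rw [if_pos (dvd_refl 1)]

/-- no pole at the natural numbers -/
lemma reg_twZ (v : Fin r → Fin N → ℕ) (R : SmoothFan N) (e : ℕ) (n : ℕ) :
    Reg (n : ℂ) (topZetaTwistedLocal v R e) := by
  classical
  unfold topZetaTwistedLocal
  refine Reg.sum _ _ fun σ hσ => ?_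
  refine (Reg.add ?_ ?_).mul (Reg.prod _ _ fun ρ hρ => ?_)
  · rw [← RatFunc.algebraMap_C]
    exact Reg.poly _ _
  · by_cases h : e ∣ 1
    · rw [if_pos h]
      refine Reg.mul ?_ ?_
      · rw [← RatFunc.algebraMap_C]
        exact Reg.poly _ _
      · have e : (RatFunc.X + 1 : RatFunc ℂ) = algebraMap ℂ[X] (RatFunc ℂ) (X + 1) := by
          rw [map_add, map_one, RatFunc.algebraMap_X]
        rw [e]
        refine Reg.inv ?_
        rw [eval_add, eval_X, eval_one]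
        exact_mod_cast Nat.succ_ne_zero n
    · rw [if_neg h, ← map_zero (algebraMap ℂ[X] (RatFunc ℂ))]
      exact Reg.poly _ 0
  · have e : ((ordAlong v ρ : RatFunc ℂ) * RatFunc.X + ((∑ l, ρ l : ℕ) : RatFunc ℂ)) =
        algebraMap ℂ[X] (RatFunc ℂ) ((ordAlong v ρ : ℂ[X]) * X + ((∑ l, ρ l : ℕ) : ℂ[X])) := by
      rw [map_add, map_mul, RatFunc.algebraMap_X, map_natCast, map_natCast]
    rw [e]
    refine Reg.inv ?_
    rw [eval_add, eval_mul, eval_X, eval_natCast, eval_natCast]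
    have h1 : 0 < ∑ l, ρ l := by
      have hσ' := (Finset.mem_filter.1 hσ).1
      by_contra hcon
      have h2 : ∑ l, ρ l = 0 := by omega
      have h3 : ∀ l, ρ l = 0 := fun l => by
        have := Finset.single_le_sum (f := ρ) (fun _ _ => Nat.zero_le _) (Finset.mem_univ l)
        omega
      exact ray_ne_zero R σ hσ' ρ hρ (funext h3)
    have h2 : (0 : ℕ) < ordAlong v ρ * n + ∑ l, ρ l := by positivity
    exact_mod_cast h2.ne'

/-- the factors of `dL L` can be removed -/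
lemma remove_dL' (Z : RatFunc ℂ) (hreg : ∀ n : ℕ, Reg (n : ℂ) Z) (L : ℕ) (D P : ℂ[X])
    (hD : D ≠ 0)
    (h : algebraMap ℂ[X] (RatFunc ℂ) (D * dL L) * Z = algebraMap ℂ[X] (RatFunc ℂ) P) :
    ∃ P' : ℂ[X], algebraMap ℂ[X] (RatFunc ℂ) D * Z = algebraMap ℂ[X] (RatFunc ℂ) P' := by
  have hL0 : dL L ≠ 0 := by
    unfold dL
    exact Finset.prod_ne_zero_iff.2 fun i _ => X_sub_C_ne_zero _
  have hdvd : Z.denom ∣ D * dL L := by
    rw [RatFunc.denom_dvd (mul_ne_zero hD hL0)]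
    refine ⟨P, ?_⟩
    rw [eq_div_iff, mul_comm, h]
    exact (map_ne_zero_iff _ (RatFunc.algebraMap_injective ℂ)).2 (mul_ne_zero hD hL0)
  have hco : IsCoprime Z.denom (dL L) := by
    unfold dL
    refine IsCoprime.prod_right fun i _ => ?_
    rw [isCoprime_comm, (irreducible_X_sub_C _).coprime_iff_not_dvd, dvd_iff_isRoot]
    exact (hreg i).denom
  have h1 : Z.denom ∣ D := hco.dvd_of_dvd_mul_right hdvd
  rw [RatFunc.denom_dvd hD] at h1
  obtain ⟨P', hP'⟩ := h1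
  refine ⟨P', ?_⟩
  rw [hP', mul_div_cancel₀]
  exact (map_ne_zero_iff _ (RatFunc.algebraMap_injective ℂ)).2 hD

lemma prodb_ne_zero (b : ℂ[X]) (hb0 : b ≠ 0) (K : ℕ) : prodb b K ≠ 0 := by
  refine Finset.prod_ne_zero_iff.2 fun i _ => ?_
  intro h0
  apply hb0
  have := congrArg (fun q : ℂ[X] => q.comp (Polynomial.X + Polynomial.C (i : ℂ))) h0
  simpa [Polynomial.comp_assoc] using this

/-- **The core theorem for the twisted local zeta functions.** -/
theorem tw_local (hr : 1 ≤ r) (v : Fin r → Fin N → ℕ) (a : Fin r → ℂ)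
    (hv : Function.Injective v) (hv0 : ∀ j, v j ≠ 0) (hnd : NondegC v a) (R : SmoothFan N)
    (hR : Principal v R) (b : ℂ[X]) (hb0 : b ≠ 0)
    (hb : Pool.Agent.H628R4.TP.IsLocalBFunction (sparse v a) b) :
    b.eval (-1) = 0 ∧ ∃ K : ℕ, ∀ e : ℕ, 1 ≤ e → ∃ P : ℂ[X], algebraMap ℂ[X] (RatFunc ℂ)
      ((if e = 1 then Polynomial.X + 1 else 1) *
        ∏ i ∈ Finset.range (K + 1), b.comp (Polynomial.X - Polynomial.C (i : ℂ))) *
      topZetaTwistedLocal v R e = algebraMap ℂ[X] (RatFunc ℂ) P := by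
  have : NeZero r := ⟨by omega⟩
  obtain ⟨h1, c, P, hc, hP⟩ := Pool.Agent.W368.SL.taskL1 (sparse v a) b
    (spa_ne_zero' hv a hnd) (spa_const v hv0 a) (Pool.Agent.W425.SL.toSL hb)
  refine ⟨h1, ?_⟩
  obtain ⟨K, L, hK⟩ := relV_all v a hv hv0 hnd b ⟨c, P, hc, fun h => absurd trivial h, hP⟩
  obtain ⟨θ, hθ⟩ := exists_heights r
  refine ⟨K, fun e he => ?_⟩
  rcases Nat.lt_or_ge e 2 with h' | h'
  · obtain rfl : e = 1 := by omega
    rw [if_pos rfl, tw_one]
    obtain ⟨P, hP⟩ := Pool.Agent.W425.SV.mainV_rel v hv hv0 θ hθ True R hR (-1) (by norm_num)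
      (fun _ => by norm_num) _ (hK θ hθ)
    have hD : ((Polynomial.X + 1) * ∏ i ∈ Finset.range (K + 1),
        b.comp (Polynomial.X - Polynomial.C (i : ℂ)) : ℂ[X]) ≠ 0 := by
      refine mul_ne_zero ?_ (prodb_ne_zero b hb0 K)
      intro h0
      have := congrArg (Polynomial.eval 0) h0
      simp at this
    refine remove_dL v R L _ P hD ?_
    rw [← topZG_neg, topZG_eq v θ hθ, mul_assoc]
    exact hP
  · obtain ⟨P, hP⟩ := Pool.Agent.W422.GC.Tw.main_tw v hv θ hθ True R hR e h' (-1) (by norm_num)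
      (fun _ => by norm_num) _ (hK θ hθ)
    rw [if_neg (by omega), one_mul]
    refine remove_dL' _ (reg_twZ v R e) L _ P (prodb_ne_zero b hb0 K) ?_
    rw [tw_two v hv0 R hR e h']
    exact hP

/-- regularity away from the roots -/
lemma tw_reg (hr : 1 ≤ r) (v : Fin r → Fin N → ℕ) (a : Fin r → ℂ)
    (hv : Function.Injective v) (hv0 : ∀ j, v j ≠ 0) (hnd : NondegC v a) (R : SmoothFan N)
    (hR : Principal v R) (b : ℂ[X]) (hb0 : b ≠ 0)
    (hb : Pool.Agent.H628R4.TP.IsLocalBFunction (sparse v a) b) (e : ℕ) (he : 1 ≤ e) (s0 : ℂ)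
    (hs : ∀ i : ℕ, b.eval (s0 - i) ≠ 0) : Reg s0 (topZetaTwistedLocal v R e) := by
  obtain ⟨h1, K, hK⟩ := tw_local hr v a hv hv0 hnd R hR b hb0 hb
  obtain ⟨P, hP⟩ := hK e he
  refine ⟨_, P, ?_, hP⟩
  rw [eval_mul]
  refine mul_ne_zero ?_ ?_
  · split_ifs
    · rw [eval_add, eval_X, eval_one]
      intro h0
      have h2 : s0 = -1 := by linear_combination h0
      have h3 := hs 0
      rw [h2, Nat.cast_zero, sub_zero] at h3
      exact h3 h1
    · rw [eval_one]; exact one_ne_zero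
  · rw [eval_prod]
    refine Finset.prod_ne_zero_iff.2 fun i _ => ?_
    rw [eval_comp, eval_sub, eval_X, eval_C]
    exact hs i

end Pool.Agent.Y229.GL
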