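import Pool.Agent.Y229.GL.Chg
import Pool.Agent.Y229.GL.Tw
import Mathlib.RingTheory.Nullstellensatz

set_option autoImplicit false

/-! Global topological zeta functions of polynomials whose germs are nondegenerate for the compact
faces in suitable formal coordinates. -/

namespace Pool.Agent.Y229.GL

open Polynomial Pool.Agent.H628R4.TZ Pool.Agent.H628R4.TP Pool.Agent.W425.SM
  Pool.Agent.W425.SG Pool.Agent.W422.GC Pool.Agent.W425.ND Pool.Agent.Y229.CF

variable {N : ℕ}

lemma exists_zero (f : MvPolynomial (Fin N) ℂ) (hf : f.totalDegree ≠ 0) :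
    ∃ p : Fin N → ℂ, MvPolynomial.eval p f = 0 := by
  by_contra hcon
  push Not at hcon
  have h1 : MvPolynomial.zeroLocus ℂ (Ideal.span {f}) = ∅ := by
    ext p
    simp only [Set.mem_empty_iff_false, iff_false]
    intro hp
    rw [MvPolynomial.mem_zeroLocus_iff] at hp
    have h0 := hp f (Ideal.subset_span rfl)
    rw [MvPolynomial.aeval_eq_eval] at h0
    exact hcon p h0
  have h2 := MvPolynomial.vanishingIdeal_zeroLocus_eq_radical (K := ℂ) (Ideal.span {f})
  rw [h1, MvPolynomial.vanishingIdeal_empty] at h2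
  have h3 : Ideal.span {f} = ⊤ := Ideal.radical_eq_top.1 h2.symm
  rw [Ideal.span_singleton_eq_top] at h3
  rw [MvPolynomial.isUnit_iff_totalDegree_of_isReduced] at h3
  exact hf h3.2

lemma coord_shift (p : Fin N → ℂ) : IsCoord (fun i => ((MvPolynomial.C (p i) +
    MvPolynomial.X i : MvPolynomial (Fin N) ℂ) : MvPowerSeries (Fin N) ℂ)) := by
  classical
  unfold IsCoord
  have e : (Matrix.of fun i j => MvPowerSeries.coeff (Finsupp.single j 1)
      (((MvPolynomial.C (p i) + MvPolynomial.X i : MvPolynomial (Fin N) ℂ) :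
        MvPowerSeries (Fin N) ℂ))) = 1 := by
    ext i j
    rw [Matrix.of_apply, MvPolynomial.coeff_coe, MvPolynomial.coeff_add, MvPolynomial.coeff_C,
      MvPolynomial.coeff_X, Matrix.one_apply]
    have h1 : ¬ (0 : Fin N →₀ ℕ) = Finsupp.single j 1 := by
      intro h
      have := DFunLike.congr_fun h j
      simp at this
    rw [if_neg h1, zero_add]
    by_cases h : i = j
    · subst h
      simp
    · rw [if_neg h, if_neg]
      intro h2
      exact h (Finsupp.single_left_injective one_ne_zero h2)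
  rw [e, Matrix.det_one]
  exact one_ne_zero

/-- `-1` is a root of the functional equation of every non-constant polynomial. -/
lemma root_neg_one (f : MvPolynomial (Fin N) ℂ) (hf : f.totalDegree ≠ 0) (b : ℂ[X])
    (hb : IsBFunction f b) : b.eval (-1) = 0 := by
  obtain ⟨p, hp⟩ := exists_zero f hf
  set g : MvPolynomial (Fin N) ℂ :=
    MvPolynomial.aeval (fun i => MvPolynomial.C (p i) + MvPolynomial.X i) f with hg
  have h1 : (MvPolynomial.aeval (fun i => ((MvPolynomial.C (p i) +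
      MvPolynomial.X i : MvPolynomial (Fin N) ℂ) : MvPowerSeries (Fin N) ℂ)) f :
        MvPowerSeries (Fin N) ℂ) = (g : MvPowerSeries (Fin N) ℂ) := by
    rw [hg]
    have h2 := MvPolynomial.comp_aeval_apply (R := ℂ)
      (f := fun i => (MvPolynomial.C (p i) + MvPolynomial.X i : MvPolynomial (Fin N) ℂ))
      (φ := MvPolynomial.coeToMvPowerSeries.algHom ℂ (σ := Fin N) (R := ℂ)) f
    simp only [MvPolynomial.coeToMvPowerSeries.algHom_apply, Algebra.algebraMap_self,
      MvPowerSeries.map_id, RingHom.id_apply] at h2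
    exact h2.symm
  have h3 := formal_local hb (coord_shift p) h1
  have h4 : MvPolynomial.constantCoeff g = 0 := by
    rw [hg, MvPolynomial.constantCoeff_eq]
    have h5 : MvPolynomial.coeff 0 (MvPolynomial.aeval (fun i => MvPolynomial.C (p i) +
        MvPolynomial.X i : Fin N → MvPolynomial (Fin N) ℂ) f) = MvPolynomial.eval p f := by
      rw [← MvPolynomial.constantCoeff_eq]
      have h6 := MvPolynomial.comp_aeval_apply (R := ℂ)
        (f := fun i => (MvPolynomial.C (p i) + MvPolynomial.X i : MvPolynomial (Fin N) ℂ))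
        (φ := MvPolynomial.aeval (fun _ => (0 : ℂ))) f
      have h7 : ∀ q : MvPolynomial (Fin N) ℂ, MvPolynomial.constantCoeff q =
          MvPolynomial.aeval (fun _ => (0 : ℂ)) q := by
        intro q
        rw [MvPolynomial.aeval_eq_eval, MvPolynomial.eval_zero']
      have h8 : (fun i => (MvPolynomial.aeval (fun _ => (0 : ℂ)))
          (MvPolynomial.C (p i) + MvPolynomial.X i : MvPolynomial (Fin N) ℂ)) = p := by
        funext i
        simp
      rw [h7, h6, h8, MvPolynomial.aeval_eq_eval]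
    rw [h5, hp]
  have h8 : g ≠ 0 := by
    intro h0
    have h9 : Function.Injective (MvPolynomial.aeval (fun i => MvPolynomial.C (p i) +
        MvPolynomial.X i : Fin N → MvPolynomial (Fin N) ℂ) :
          MvPolynomial (Fin N) ℂ → MvPolynomial (Fin N) ℂ) := by
      refine Function.LeftInverse.injective (g := MvPolynomial.aeval
        (fun i => MvPolynomial.X i - MvPolynomial.C (p i) : Fin N → MvPolynomial (Fin N) ℂ)) ?_
      intro q
      rw [MvPolynomial.comp_aeval_apply]
      conv_rhs => rw [← MvPolynomial.aeval_X_left_apply q]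
      congr 2
      funext i
      simp
    have h10 : f = 0 := h9 (by rw [map_zero]; exact h0)
    rw [h10] at hf
    exact hf MvPolynomial.totalDegree_zero
  exact (Pool.Agent.W368.SL.taskL1 g b h8 h4 (Pool.Agent.W425.SL.toSL h3)).1

/-- A global (twisted) topological zeta function: `c + c' / (s + 1) + ∑_t χ_t Z_t(s)`, without the
term `c' / (s + 1)` if `e ≥ 2`. -/
noncomputable def glue {m : ℕ} (e : ℕ) (c c' : ℤ) (χ : Fin m → ℤ) (Z : Fin m → RatFunc ℂ) :
    RatFunc ℂ :=
  RatFunc.C (c : ℂ) + (if e = 1 then RatFunc.C (c' : ℂ) * (RatFunc.X + 1)⁻¹ else 0) +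
    ∑ t, RatFunc.C (χ t : ℂ) * Z t

lemma reg_glue {m : ℕ} (e : ℕ) (c c' : ℤ) (χ : Fin m → ℤ) (Z : Fin m → RatFunc ℂ) (s0 : ℂ)
    (h1 : e = 1 → s0 ≠ -1) (h2 : ∀ t, Reg s0 (Z t)) : Reg s0 (glue e c c' χ Z) := by
  unfold glue
  refine (Reg.add ?_ ?_).add (Reg.sum _ _ fun t _ => ?_)
  · rw [← RatFunc.algebraMap_C]
    exact Reg.poly _ _
  · split_ifs with h
    · refine Reg.mul ?_ ?_
      · rw [← RatFunc.algebraMap_C]
        exact Reg.poly _ _
      · have e : (RatFunc.X + 1 : RatFunc ℂ) = algebraMap ℂ[X] (RatFunc ℂ) (X + 1) := by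
          rw [map_add, map_one, RatFunc.algebraMap_X]
        rw [e]
        refine Reg.inv ?_
        rw [eval_add, eval_X, eval_one]
        intro h0
        exact h1 h (by linear_combination h0)
    · rw [← map_zero (algebraMap ℂ[X] (RatFunc ℂ))]
      exact Reg.poly _ 0
  · refine Reg.mul ?_ (h2 t)
    rw [← RatFunc.algebraMap_C]
    exact Reg.poly _ _

theorem global_germs {m : ℕ} (f : MvPolynomial (Fin N) ℂ) (hf : f.totalDegree ≠ 0) (b : ℂ[X])
    (hb0 : b ≠ 0) (hb : IsBFunction f b) (φ : Fin m → Fin N → MvPowerSeries (Fin N) ℂ)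
    (hφ : ∀ t, IsCoord (φ t)) (r : Fin m → ℕ) (hr : ∀ t, 1 ≤ r t)
    (v : ∀ t, Fin (r t) → Fin N → ℕ) (a : ∀ t, Fin (r t) → ℂ)
    (hv : ∀ t, Function.Injective (v t)) (hv0 : ∀ t j, v t j ≠ 0)
    (hnd : ∀ t, NondegC (v t) (a t))
    (hg : ∀ t, (MvPolynomial.aeval (φ t) f : MvPowerSeries (Fin N) ℂ) =
      ((sparse (v t) (a t) : MvPolynomial (Fin N) ℂ) : MvPowerSeries (Fin N) ℂ))
    (R : Fin m → SmoothFan N) (hR : ∀ t, Principal (v t) (R t)) (e : ℕ) (he : 1 ≤ e)
    (c c' : ℤ) (χ : Fin m → ℤ) (s0 : ℂ)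
    (hs : (glue e c c' χ fun t => topZetaTwistedLocal (v t) (R t) e).denom.eval s0 = 0) :
    ∃ i : ℕ, b.eval (s0 - i) = 0 := by
  by_contra hcon
  push Not at hcon
  refine (reg_glue e c c' χ _ s0 (fun _ h => ?_) fun t => ?_).denom hs
  · have h1 := hcon 0
    rw [h, Nat.cast_zero, sub_zero] at h1
    exact h1 (root_neg_one f hf b hb)
  · exact tw_reg (hr t) (v t) (a t) (hv t) (hv0 t) (hnd t) (R t) (hR t) b hb0
      (formal_local hb (hφ t) (hg t)) e he s0 hcon

theorem local_germs {m : ℕ} (r : Fin m → ℕ) (hr : ∀ t, 1 ≤ r t)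
    (v : ∀ t, Fin (r t) → Fin N → ℕ) (a : ∀ t, Fin (r t) → ℂ)
    (hv : ∀ t, Function.Injective (v t)) (hv0 : ∀ t j, v t j ≠ 0)
    (hnd : ∀ t, NondegC (v t) (a t)) (R : Fin m → SmoothFan N)
    (hR : ∀ t, Principal (v t) (R t)) (b : Fin m → ℂ[X]) (hb0 : ∀ t, b t ≠ 0)
    (hb : ∀ t, Pool.Agent.H628R4.TP.IsLocalBFunction (sparse (v t) (a t)) (b t)) (e : ℕ)
    (he : 1 ≤ e) (c c' : ℤ) (χ : Fin m → ℤ) (s0 : ℂ)
    (hs : (glue e c c' χ fun t => topZetaTwistedLocal (v t) (R t) e).denom.eval s0 = 0) :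
    (e = 1 ∧ s0 = -1) ∨ ∃ t, ∃ i : ℕ, (b t).eval (s0 - i) = 0 := by
  by_contra hcon
  push Not at hcon
  refine (reg_glue e c c' χ _ s0 (fun h h' => hcon.1 h h') fun t => ?_).denom hs
  exact tw_reg (hr t) (v t) (a t) (hv t) (hv0 t) (hnd t) (R t) (hR t) (b t) (hb0 t)
    (hb t) e he s0 (hcon.2 t)

end Pool.Agent.Y229.GL
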